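import Pool.Agent.H58.FL.TargetsB

/-!
# MP_6a7a6f_gt, row CPG of the board flc_modules (helper42)

The top homology of the complex projective space is cyclic.
-/

set_option autoImplicit false

open Topology

namespace Pool.Agent.H42.FL

open Pool.Agent.H58.FL Pool.Agent.H59 Pool.Agent.H48.FR

noncomputable section

theorem isZ_zero {Y : Type} [TopologicalSpace Y] (n : ℕ) : IsZ (0 : Ch ℤ n Y) := by
  cases n with
  | zero => trivial
  | succ n => exact map_zero _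

theorem cyc_of_van {Y : Type} [TopologicalSpace Y] {n : ℕ} (h : Van n Y) : Cyc n Y := by
  refine ⟨0, isZ_zero n, fun z hz => ?_⟩
  obtain ⟨b, hb⟩ := h z hz
  exact ⟨0, b, by rw [hb, smul_zero, sub_zero]⟩

instance nonempty_CP0 : Nonempty (CPn 0) :=
  ⟨mk (fun _ => 1) (fun h => one_ne_zero (congrFun h 0))⟩

theorem eq_CP0 (P Q : PP ℂ 0) : P = Q := by
  have h1 : P.rep 0 ≠ 0 := fun h => P.rep_ne (by
    funext i
    rw [Fin.fin_one_eq_zero i]
    exact h)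
  have h2 : Q.rep 0 ≠ 0 := fun h => Q.rep_ne (by
    funext i
    rw [Fin.fin_one_eq_zero i]
    exact h)
  refine (PP.mk_rep P).symm.trans (((PP.mk_eq_iff P.rep_ne Q.rep_ne).2
    ⟨P.rep 0 / Q.rep 0, div_ne_zero h1 h2, ?_⟩).trans (PP.mk_rep Q))
  funext i
  rw [Fin.fin_one_eq_zero i, Pi.smul_apply, smul_eq_mul, div_mul_cancel₀ _ h2]

instance subsingleton_CP0 : Subsingleton (CPn 0) := ⟨fun P Q => eq_CP0 P Q⟩

theorem pf_CPG (hMVL : T_MVL) (hPUN : T_PUN) (hCTR : T_CTR) (hCPU : T_CPU) : T_CPG := by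
  intro n
  induction n with
  | zero =>
    exact ⟨fun m _ => hCTR (CPn 0) m, cyc_of_van (hCTR (CPn 0) _)⟩
  | succ n ih =>
    obtain ⟨O₁, O₂, h1, h2, hU, hV1, hV2, hV, hC⟩ := hCPU n
    refine ⟨fun m hm => ?_, ?_⟩
    · obtain ⟨m', rfl⟩ : ∃ m', m = m' + 1 := ⟨m - 1, by omega⟩
      exact (hMVL (CPn (n + 1)) O₁ O₂ h1 h2 hU m' (hV1 _ (ih.1 _ (by omega))) (hV2 _)).1
        (hV m' ((hPUN _).1 m' (by omega)))
    · exact (hMVL (CPn (n + 1)) O₁ O₂ h1 h2 hU (2 * (n + 1)) (hV1 _ (ih.1 _ (by omega)))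
        (hV2 _)).2 (hC _ (hPUN _).2)

end

end Pool.Agent.H42.FL
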