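import Pool.Agent.H58.FL.TargetsB

/-!
# MP_6a7a6f_gt, row ZZ0 of the board flc_modules (helper42)

The chain of the subdivided cube is zero if the map does not depend on a pair of coordinates.
-/

set_option autoImplicit false

open Topology

namespace Pool.Agent.H42.FL

open Pool.Agent.H58.FL Pool.Agent.H59 Pool.Agent.H48.FR

noncomputable section

theorem pr_inj {n : ℕ} {i l : Fin n} {e e' : Fin 2} (h : pr i e = pr l e') : i = l := by
  unfold pr at h
  have := finProdFinEquiv.injective h
  exact congrArg Prod.snd this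

theorem pr_inj' {n : ℕ} {i l : Fin n} {e e' : Fin 2} (h : pr i e = pr l e') : e = e' := by
  unfold pr at h
  have := finProdFinEquiv.injective h
  exact congrArg Prod.fst this

theorem pf_ZZ0 : T_ZZ0 := by
  classical
  intro Y _ n N H l hH
  unfold ZZ
  refine Finset.sum_eq_zero fun x _ => ?_
  set s : Equiv.Perm (Fin (2 * n)) := Equiv.swap (pr l 0) (pr l 1) with hs
  have hne : pr l (0 : Fin 2) ≠ pr l 1 := fun h => absurd (pr_inj' h) (by decide)
  set f : Equiv.Perm (Fin (2 * n)) → Ch ℤ (2 * n + 1) Y := fun π =>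
    Finsupp.single (H.comp (sx x π)) ((Equiv.Perm.sign π : ℤˣ) : ℤ) with hf
  have hinv : ∀ π, f (s * π) = - f π := by
    intro π
    have h1 : ∀ (i : Fin n) (e : Fin 2), i ≠ l →
        (s * π).symm (pr i e) = π.symm (pr i e) := by
      intro i e hi
      have h2 : s (pr i e) = pr i e := by
        rw [hs]
        apply Equiv.swap_apply_of_ne_of_ne
        · intro h
          exact hi (pr_inj h)
        · intro h
          exact hi (pr_inj h)
      rw [Equiv.symm_apply_eq]
      show _ = s (π (π.symm (pr i e)))
      rw [Equiv.apply_symm_apply, h2]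
    have h3 : Equiv.Perm.sign (s * π) = - Equiv.Perm.sign π := by
      rw [Equiv.Perm.sign_mul, hs, Equiv.Perm.sign_swap hne, neg_one_mul]
    have h4 : H.comp (sx x (s * π)) = H.comp (sx x π) := by
      refine ContinuousMap.ext fun q => ?_
      show H (sx x (s * π) q) = H (sx x π q)
      refine hH _ _ fun i e hi => ?_
      show ∑ t : Fin (2 * n + 1), q t * fv x (s * π) t (pr i e) =
        ∑ t : Fin (2 * n + 1), q t * fv x π t (pr i e)
      refine Finset.sum_congr rfl fun t _ => ?_
      unfold fv
      rw [h1 i e hi]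
    simp only [hf]
    rw [h3, h4, Units.val_neg, Finsupp.single_neg]
  have hsum : ∑ π, f π = ∑ π, f (s * π) := (Equiv.sum_comp (Equiv.mulLeft s) f).symm
  have h4 : ∑ π, f (s * π) = - ∑ π, f π := by
    rw [← Finset.sum_neg_distrib]
    exact Finset.sum_congr rfl fun π _ => hinv π
  have h5 : ∑ π, f π = - ∑ π, f π := hsum.trans h4
  refine Finsupp.ext fun σ => ?_
  have h6 := DFunLike.congr_fun h5 σ
  rw [Finsupp.neg_apply] at h6
  exact self_eq_neg.mp h6

end

end Pool.Agent.H42.FL
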