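import Pool.Agent.H58.FL.TargetsD

/-!
MP_6a7a6f_gt, rows TR2 and STI of the board fld_modules.
-/

set_option autoImplicit false

open Pool.Agent.H58.FL Pool.Agent.H59 Pool.Agent.H48.FR

namespace Pool.Agent.H42.FL

theorem pf_TR2 (hGRM : T_GRM) (hNU3 : T_NU3) : T_TR2 := by
  intro E _ _ a b c ha hb hc
  have h0 := hGRM E a b c ha hb
  rw [hc] at h0
  have hre : (inner ℂ a b * inner ℂ b c * inner ℂ c a : ℂ).re =
      ‖(inner ℂ a b : ℂ)‖ * ‖(inner ℂ b c : ℂ)‖ * ‖(inner ℂ c a : ℂ)‖ * Real.cos (ar a b c) := by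
    rw [← norm_mul, ← norm_mul, ar, Complex.norm_mul_cos_arg]
  have hac : ‖(inner ℂ a c : ℂ)‖ = ‖(inner ℂ c a : ℂ)‖ := norm_inner_symm a c
  have hr1 : ‖(inner ℂ a b : ℂ)‖ ≤ 1 := by
    have := norm_inner_le_norm (𝕜 := ℂ) a b
    rw [ha, hb] at this
    linarith
  rw [hre, hac] at h0
  have hn1 := norm_nonneg (inner ℂ a b : ℂ)
  have hn2 := norm_nonneg (inner ℂ b c : ℂ)
  have hn3 := norm_nonneg (inner ℂ c a : ℂ)
  have hcos : Real.cos (ar a b c) = Real.cos |ar a b c| := (Real.cos_abs _).symm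
  have hpi : |ar a b c| ≤ Real.pi := Complex.abs_arg_le_pi _
  unfold Ad
  generalize ‖(inner ℂ a b : ℂ)‖ = r at *
  generalize ‖(inner ℂ b c : ℂ)‖ = x at *
  generalize ‖(inner ℂ c a : ℂ)‖ = y at *
  generalize ar a b c = F at *
  have main : ∀ κ : ℝ, 0 < κ → κ ≤ r ^ 2 → κ ≤ x ^ 2 → κ ≤ y ^ 2 →
      0 < r ∧ (r ^ 2 - (1 - 2 * κ)) / (2 * κ * r) ≤ Real.cos F := by
    intro κ hκ h1 h2 h3
    have pos : ∀ z : ℝ, 0 ≤ z → κ ≤ z ^ 2 → 0 < z := by
      intro z hz hz2
      rcases hz.lt_or_eq with h | h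
      · exact h
      · rw [← h] at hz2
        norm_num at hz2
        linarith
    have hx := pos x hn2 h2
    have hy := pos y hn3 h3
    have hr := pos r hn1 h1
    refine ⟨hr, ?_⟩
    have hxy : κ ≤ x * y := by
      have h4 : κ ^ 2 ≤ (x * y) ^ 2 := by
        rw [mul_pow, sq κ]
        exact mul_le_mul h2 h3 hκ.le (by positivity)
      exact (abs_le_of_sq_le_sq' h4 (mul_pos hx hy).le).2
    have h4 : x * y * (r ^ 2 - (1 - 2 * κ)) ≤ x * y * (2 * κ * r * Real.cos F) := by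
      have e1 : 0 ≤ κ * (x - y) ^ 2 + (1 - r ^ 2) * (x * y - κ) := by
        have e2 : 0 ≤ 1 - r ^ 2 := by nlinarith
        have e3 := mul_nonneg e2 (by linarith : 0 ≤ x * y - κ)
        have e4 := mul_nonneg hκ.le (sq_nonneg (x - y))
        linarith
      have e5 : κ * (y ^ 2 + x ^ 2 - 2 * (r * x * y * Real.cos F)) ≤ κ * ((1 - r ^ 2) * 1 ^ 2) :=
        mul_le_mul_of_nonneg_left (by linarith) hκ.le
      nlinarith
    have h5 : r ^ 2 - (1 - 2 * κ) ≤ 2 * κ * r * Real.cos F :=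
      le_of_mul_le_mul_left h4 (mul_pos hx hy)
    rw [div_le_iff₀ (by positivity)]
    linarith
  refine ⟨fun κ hκ h1 h2 h3 => (main κ hκ h1 h2 h3).2, fun h1 h2 h3 => ?_⟩
  obtain ⟨-, ⟨hk0, -, hk1, -, -, -⟩, -, -, ⟨h7, -⟩, -, -⟩ := hNU3
  obtain ⟨hr, h4⟩ := main k2 hk0 h1.le h2.le h3.le
  have hs := Real.sqrt_pos.2 hk0
  have hs2 := Real.sq_sqrt hk0.le
  have h5 : (3 * k2 - 1) / (2 * k2 * Real.sqrt k2) < (r ^ 2 - (1 - 2 * k2)) / (2 * k2 * r) := by
    rw [div_lt_div_iff₀ (by positivity) (by positivity)]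
    generalize Real.sqrt k2 = s at *
    generalize k2 = κ at *
    subst hs2
    have hsr : s < r := by
      exact lt_of_pow_lt_pow_left₀ 2 hn1 h1
    have e1 : 0 < (r - s) * (1 + s * r - 2 * s ^ 2) := by
      refine mul_pos (by linarith) ?_
      have : 0 < s * r := mul_pos hs hr
      nlinarith
    have e2 : 0 < 2 * s ^ 2 * ((r - s) * (1 + s * r - 2 * s ^ 2)) := by positivity
    nlinarith
  rw [h7] at h5
  by_contra hcon
  push Not at hcon
  have h6 : Real.cos |F| ≤ Real.cos (7 * Real.pi / 10) :=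
    Real.cos_le_cos_of_nonneg_of_le_pi (by linarith [Real.pi_pos]) hpi hcon
  rw [← hcos] at h6
  linarith

theorem pf_STI : T_STI := by
  intro E _ _ N u φ k hu hN hφ
  let _ : InnerProductSpace ℝ E := InnerProductSpace.rclikeToReal ℂ E
  obtain ⟨Φ, hΦ⟩ : ∃ Φ : ℕ → ℝ, Φ = fun j => ∑ l ∈ Finset.range j, φ l := ⟨_, rfl⟩
  obtain ⟨v, hv⟩ : ∃ v : ℕ → E, v = fun j => Complex.exp (-(Φ j * Complex.I)) • u j := ⟨_, rfl⟩
  have hvn : ∀ j, ‖v j‖ = 1 := by
    intro j
    rw [hv]
    simp only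
    rw [norm_smul, hu j, mul_one, Complex.norm_exp]
    simp
  have hin : ∀ j, inner ℂ (v j) (v (j + 1)) =
      Complex.exp (-(φ j * Complex.I)) * inner ℂ (u j) (u (j + 1)) := by
    intro j
    rw [hv]
    simp only
    rw [inner_smul_left, inner_smul_right, ← Complex.exp_conj, ← mul_assoc, ← Complex.exp_add]
    congr 2
    rw [hΦ]
    simp only [Finset.sum_range_succ, map_neg, map_mul, Complex.conj_ofReal, Complex.conj_I]
    push_cast
    ring
  have hang : ∀ j, InnerProductGeometry.angle (v j) (v (j + 1)) =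
      Real.arccos ((Complex.exp (-(φ j * Complex.I)) * inner ℂ (u j) (u (j + 1))).re) := by
    intro j
    unfold InnerProductGeometry.angle
    rw [hvn j, hvn (j + 1), mul_one, div_one, real_inner_eq_re_inner ℂ, hin j]
    rfl
  have htri : ∀ n, InnerProductGeometry.angle (v 0) (v n) ≤
      ∑ j ∈ Finset.range n, InnerProductGeometry.angle (v j) (v (j + 1)) := by
    intro n
    induction n with
    | zero =>
      have h0 : v 0 ≠ 0 := by
        intro h
        have := hvn 0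
        rw [h, norm_zero] at this
        exact zero_ne_one this
      rw [InnerProductGeometry.angle_self h0]
      simp
    | succ n ih =>
      rw [Finset.sum_range_succ]
      exact (InnerProductGeometry.angle_le_angle_add_angle _ _ _).trans
        (add_le_add ih le_rfl)
  have hend : v N = -v 0 := by
    rw [hv]
    simp only
    have h1 : Φ N = (2 * k + 1) * Real.pi := by rw [hΦ]; exact hφ
    have h2 : Φ 0 = 0 := by rw [hΦ]; simp
    rw [hN, h1, h2]
    have h3 : Complex.exp (-(((2 * (k : ℝ) + 1) * Real.pi : ℝ) * Complex.I)) = -1 := by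
      have e : (-(((2 * (k : ℝ) + 1) * Real.pi : ℝ) * Complex.I) : ℂ) =
          (((-k : ℤ) : ℂ)) * (2 * Real.pi * Complex.I) - Real.pi * Complex.I := by
        push_cast
        ring
      rw [e, Complex.exp_sub, Complex.exp_int_mul_two_pi_mul_I, Complex.exp_pi_mul_I]
      norm_num
    rw [h3]
    simp
  have h0 : v 0 ≠ 0 := by
    intro h
    have := hvn 0
    rw [h, norm_zero] at this
    exact zero_ne_one this
  have h := htri N
  rw [hend, InnerProductGeometry.angle_self_neg_of_nonzero h0] at h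
  refine h.trans (le_of_eq ?_)
  exact Finset.sum_congr rfl fun j _ => hang j

end Pool.Agent.H42.FL
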